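import Pool.Agent.helper3.T6.SpecH

/-!
Row t6:HGC of MP_16912e_nt.
-/

set_option autoImplicit false

namespace Pool.Agent.T6

open Finset NumberField Pool.Agent.helper3.FT Pool.Agent.helper47.RA Pool.Agent.T5
open scoped nonZeroDivisors

lemma HGC_sq {n m : ℕ} (hn : Squarefree n) (h : ∀ p : ℕ, p.Prime → p ∣ n → p ∣ m) : n ∣ m := by
  rw [← Nat.prod_primeFactors_of_squarefree hn]
  refine Finset.prod_primes_dvd m (fun p hp => (Nat.prime_of_mem_primeFactors hp).prime)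
    fun p hp => h p (Nat.prime_of_mem_primeFactors hp) (Nat.dvd_of_mem_primeFactors hp)

lemma HGC_gcd {r e r' e' Z : ℕ} (hr : r ∣ Z) (hr' : r' ∣ Z) (he : Nat.Coprime e (r * Z))
    (he' : Nat.Coprime e' (r' * Z)) :
    Nat.gcd (r * e) (r' * e') = Nat.gcd r r' * Nat.gcd e e' := by
  have h1 : Nat.Coprime r' e' := (he'.coprime_dvd_right (Dvd.intro _ rfl)).symm
  have h2 : Nat.Coprime e r' := he.coprime_dvd_right (hr'.trans (Dvd.intro_left _ rfl))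
  have h3 : Nat.Coprime r e' := (he'.coprime_dvd_right (hr.trans (Dvd.intro_left _ rfl))).symm
  rw [Nat.Coprime.gcd_mul _ h1, Nat.Coprime.gcd_mul_right_cancel _ h2,
    Nat.Coprime.gcd_mul_left_cancel _ h3]

/-- what is needed of one side -/
lemma HGC_side {K : Type} [Field K] [NumberField K] (Q : QF K) (hD : Q.D < 0) (a : Ideal (𝓞 K))
    (α γ : 𝓞 K) (hA : Adm Q a α γ) :
    ∃ r e : ℕ, gd Q α γ = r * e ∧ r ∣ Ideal.absNorm a ∧ Squarefree r ∧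
      Nat.Coprime e (r * Ideal.absNorm a) ∧
      (∀ p : ℕ, p.Prime → p ∣ r → (p : ℤ) ∣ Q.D ∧ p ∣ lamI a α) ∧
      (e : ℤ) ∣ Q.Y α ∧ Pool.Agent.helper26.T5.nn α = Ideal.absNorm a ^ 2 * lamI a α := by
  obtain ⟨θ, hθ, hg⟩ := hA.ga
  have hα0 : α ≠ 0 := by
    rintro rfl
    have h0 : (0 : ℤ) ∣ Q.Y (0 * 0 : 𝓞 K) ∨ True := Or.inr trivial
    have hz : Q.Y (0 : 𝓞 K) = 0 := by
      have h2 := Q.Y_int_mul 0 (0 : 𝓞 K)
      simpa using h2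
    have := hA.n0
    omega
  obtain ⟨F, hFa, hFβ, hFγ, -, -, hFΛ, -⟩ :=
    Pool.Agent.helper26.T5.lfu K Q a θ α γ hD hA.pa hA.ne hθ.symm hα0 hA.mem hA.pL hg
  have hYne : Q.Y F.β ≠ 0 := by
    rw [hFβ]
    exact hA.n0.ne'
  have hdv : Nat.gcd (gd Q F.β F.γ) (Ideal.absNorm F.a) ∣ gd Q F.β F.γ := Nat.gcd_dvd_left _ _
  obtain ⟨e, he⟩ := hdv
  obtain ⟨h1, h2, h3⟩ := Pool.Agent.helper26.T5.AllL.aLRD K Q F hYne _ e rfl he
  rw [hFβ, hFγ, hFa] at h1 h2 h3 he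
  refine ⟨_, e, he, Nat.gcd_dvd_right _ _, h1, h2, fun p hp hpr => ?_, ?_, ?_⟩
  · obtain ⟨h4, h5, -⟩ := h3 p hp hpr
    rw [hFΛ] at h5
    exact ⟨h4, Int.natCast_dvd_natCast.1 h5⟩
  · have h4 : ((gd Q α γ : ℕ) : ℤ) ∣ Q.Y α := Int.gcd_dvd_left _ _
    refine dvd_trans ?_ h4
    rw [he]
    exact Int.natCast_dvd_natCast.2 (Dvd.intro_left _ rfl)
  · exact (Pool.Agent.helper26.T5.AllL.aLAW K Q a α 2 hA.pa hA.ne Nat.prime_two hα0 hA.mem).1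

theorem HGC : HGC_stmt := by
  intro K _ _ Q hD a α γ α' γ' m hA hA' hm hY
  obtain ⟨r, e, hd, hrZ, hr, he, hp, hey, hnn⟩ := HGC_side Q hD a α γ hA
  obtain ⟨r', e', hd', hrZ', hr', he', hp', hey', hnn'⟩ := HGC_side Q hD a α' γ' hA'
  set Z : ℕ := Ideal.absNorm a with hZ
  have hZ0 : 0 < Z := by
    rw [hZ, Nat.pos_iff_ne_zero, Ne, Ideal.absNorm_eq_zero_iff]
    exact hA.ne
  rw [hd, hd', HGC_gcd hrZ hrZ' he he']
  set r₀ : ℕ := Nat.gcd r r' with hr₀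
  set e₀ : ℕ := Nat.gcd e e' with he₀
  have hr₀r : r₀ ∣ r := Nat.gcd_dvd_left _ _
  have hr₀r' : r₀ ∣ r' := Nat.gcd_dvd_right _ _
  have hsq₀ : Squarefree r₀ := hr.squarefree_of_dvd hr₀r
  have hcop : Nat.Coprime e₀ (r₀ * Z) :=
    (he.coprime_dvd_left (Nat.gcd_dvd_left _ _)).coprime_dvd_right (Nat.mul_dvd_mul hr₀r dvd_rfl)
  -- natural number form of the value
  have hYn : (Q.Y (Q.cj α * α')).natAbs = m.natAbs * Z ^ 2 := by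
    have h := congrArg Int.natAbs hY
    rwa [Int.natAbs_abs, Int.natAbs_mul, Int.natAbs_abs, Int.natAbs_pow, Int.natAbs_natCast] at h
  have hm0 : 0 < m.natAbs := Int.natAbs_pos.2 hm
  -- the prime to Z part
  have he₀m : e₀ ∣ m.natAbs := by
    have h1 : (e₀ : ℤ) ∣ Q.Y α := (Int.natCast_dvd_natCast.2 (Nat.gcd_dvd_left _ _)).trans hey
    have h2 : (e₀ : ℤ) ∣ Q.Y α' := (Int.natCast_dvd_natCast.2 (Nat.gcd_dvd_right _ _)).trans hey'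
    have h3 : (e₀ : ℤ) ∣ Q.Y (Q.cj α * α') := Q.h96_Y_mul _ (Q.h96_Y_cj _ h1) h2
    have h4 : e₀ ∣ m.natAbs * Z ^ 2 := by
      rw [← hYn]
      exact Int.natCast_dvd.1 h3
    refine Nat.Coprime.dvd_of_dvd_mul_right ?_ h4
    exact Nat.Coprime.pow_right 2 (hcop.coprime_dvd_right (Dvd.intro_left _ rfl))
  -- the odd part of r₀
  obtain ⟨r₁, hr₁, hr₁2, hle⟩ : ∃ r₁ : ℕ, r₁ ∣ r₀ ∧ ¬ 2 ∣ r₁ ∧ r₀ ≤ 2 * r₁ := by
    by_cases h2 : 2 ∣ r₀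
    · obtain ⟨r₁, h⟩ := h2
      refine ⟨r₁, ⟨2, by rw [h, Nat.mul_comm]⟩, ?_, by omega⟩
      intro h4
      have h5 : 2 * 2 ∣ r₀ := by
        rw [h]
        exact Nat.mul_dvd_mul dvd_rfl h4
      have h6 := hsq₀ 2 h5
      rw [Nat.isUnit_iff] at h6
      omega
    · exact ⟨r₀, dvd_rfl, h2, by omega⟩
  have hsq₁ : Squarefree r₁ := hsq₀.squarefree_of_dvd hr₁
  have hΛ : r₁ ∣ lamI a α :=
    HGC_sq hsq₁ fun p hpp hpr => (hp p hpp ((hpr.trans hr₁).trans hr₀r)).2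
  have hΛ' : r₁ ∣ lamI a α' :=
    HGC_sq hsq₁ fun p hpp hpr => (hp' p hpp ((hpr.trans hr₁).trans hr₀r')).2
  have hrm := Pool.Agent.helper26.T5.lrm K Q a r₁ α α' hD hA.ne hsq₁ hr₁2
    (fun p hpp hpr => (hp p hpp ((hpr.trans hr₁).trans hr₀r)).1) hA.mem hA'.mem
    (by
      rw [hnn, ← hZ, Nat.mul_comm]
      exact Nat.mul_dvd_mul dvd_rfl hΛ)
    (by
      rw [hnn', ← hZ, Nat.mul_comm]
      exact Nat.mul_dvd_mul dvd_rfl hΛ')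
  have hr₁m : r₁ ∣ m.natAbs := by
    have h4 : r₁ * Z ^ 2 ∣ m.natAbs * Z ^ 2 := by
      rw [← hYn]
      exact Int.natCast_dvd.1 hrm
    exact Nat.dvd_of_mul_dvd_mul_right (Nat.pow_pos hZ0) h4
  have hcop₁ : Nat.Coprime r₁ e₀ :=
    ((hcop.coprime_dvd_right (Dvd.intro _ rfl)).coprime_dvd_right hr₁).symm
  have hfin : r₁ * e₀ ∣ m.natAbs := hcop₁.mul_dvd_of_dvd_of_dvd hr₁m he₀m
  have hfl : r₁ * e₀ ≤ m.natAbs := Nat.le_of_dvd hm0 hfin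
  have hfl2 : r₀ * e₀ ≤ 2 * m.natAbs := by
    calc r₀ * e₀ ≤ (2 * r₁) * e₀ := Nat.mul_le_mul_right _ hle
      _ = 2 * (r₁ * e₀) := by ring
      _ ≤ 2 * m.natAbs := Nat.mul_le_mul_left _ hfl
  have h5 : ((r₀ * e₀ : ℕ) : ℤ) ≤ ((2 * m.natAbs : ℕ) : ℤ) := Int.ofNat_le.2 hfl2
  rw [Nat.cast_mul (α := ℤ) 2, Int.natCast_natAbs] at h5
  exact h5

end Pool.Agent.T6
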