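import Pool.Agent.helper3.T6.SpecH

/-!
Row t6:HLC of MP_16912e_nt.
-/

set_option autoImplicit false

namespace Pool.Agent.T6

open Finset NumberField Pool.Agent.helper3.FT Pool.Agent.helper47.RA Pool.Agent.T5
open scoped nonZeroDivisors

lemma HLC_gcd (S : Finset ℤ) (d : ℤ → ℕ) (e : ℕ) :
    Nat.gcd (S.lcm d) e ∣ ∏ x ∈ S, Nat.gcd (d x) e := by
  classical
  induction S using Finset.induction_on with
  | empty => simp
  | @insert a S ha ih =>
    rw [Finset.lcm_insert, Finset.prod_insert ha]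
    have h1 : Nat.gcd (lcm (d a) (S.lcm d)) e ∣ Nat.gcd (d a * S.lcm d) e :=
      Nat.gcd_dvd_gcd_of_dvd_left _ (Nat.lcm_dvd_mul _ _)
    have h2 : Nat.gcd (d a * S.lcm d) e ∣ Nat.gcd (d a) e * Nat.gcd (S.lcm d) e :=
      Nat.gcd_mul_left_dvd_mul_gcd _ _ _
    exact (h1.trans h2).trans (Nat.mul_dvd_mul dvd_rfl ih)

lemma HLC_main (S : Finset ℤ) (d : ℤ → ℕ) (H M : ℝ) (hH : 1 ≤ H) (hM : 1 ≤ M)
    (h1 : ∀ x ∈ S, H < d x)
    (h2 : ∀ x ∈ S, ∀ x' ∈ S, x ≠ x' → (Nat.gcd (d x) (d x') : ℝ) ≤ M) :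
    H ^ S.card ≤ ((S.lcm d : ℕ) : ℝ) * M ^ (S.card ^ 2) := by
  classical
  induction S using Finset.induction_on with
  | empty => simp
  | @insert a S ha ih =>
    have ih' := ih (fun x hx => h1 x (Finset.mem_insert_of_mem hx))
      fun x hx x' hx' => h2 x (Finset.mem_insert_of_mem hx) x' (Finset.mem_insert_of_mem hx')
    rw [Finset.lcm_insert, Finset.card_insert_of_notMem ha]
    set L : ℕ := S.lcm d with hL
    set K : ℕ := S.card with hK
    have ha1 := h1 a (Finset.mem_insert_self _ _)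
    have hapos : 0 < d a := by
      have : (0 : ℝ) < d a := by linarith
      exact_mod_cast this
    have hpos : ∀ x ∈ S, 0 < Nat.gcd (d x) (d a) := fun x _ => Nat.gcd_pos_of_pos_right _ hapos
    have hg : ((Nat.gcd L (d a) : ℕ) : ℝ) ≤ M ^ K := by
      have e1 : Nat.gcd L (d a) ≤ ∏ x ∈ S, Nat.gcd (d x) (d a) :=
        Nat.le_of_dvd (Finset.prod_pos hpos) (HLC_gcd S d (d a))
      have e2 : ((∏ x ∈ S, Nat.gcd (d x) (d a) : ℕ) : ℝ) ≤ M ^ K := by
        rw [Nat.cast_prod, hK, ← Finset.prod_const]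
        refine Finset.prod_le_prod (fun _ _ => Nat.cast_nonneg _) ?_
        intro x hx
        refine h2 x (Finset.mem_insert_of_mem hx) a (Finset.mem_insert_self _ _) ?_
        rintro rfl
        exact ha hx
      exact (Nat.cast_le.2 e1).trans e2
    have hlg : ((lcm (d a) L : ℕ) : ℝ) * ((Nat.gcd L (d a) : ℕ) : ℝ) = (d a : ℝ) * L := by
      have e : Nat.lcm (d a) L * Nat.gcd L (d a) = d a * L := by
        rw [Nat.gcd_comm, Nat.mul_comm]
        exact Nat.gcd_mul_lcm _ _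
      have : lcm (d a) L * Nat.gcd L (d a) = d a * L := e
      exact_mod_cast this
    have hL0 : (0 : ℝ) ≤ L := Nat.cast_nonneg _
    have hc0 : (0 : ℝ) ≤ ((lcm (d a) L : ℕ) : ℝ) := Nat.cast_nonneg _
    have hM0 : (0 : ℝ) ≤ M := by linarith
    have hH0 : (0 : ℝ) ≤ H := by linarith
    have hMK : (0 : ℝ) ≤ M ^ (K ^ 2) := pow_nonneg hM0 _
    calc H ^ (K + 1) = H * H ^ K := by ring
      _ ≤ H * (L * M ^ (K ^ 2)) := mul_le_mul_of_nonneg_left ih' hH0
      _ = (H * L) * M ^ (K ^ 2) := by ring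
      _ ≤ ((d a : ℝ) * L) * M ^ (K ^ 2) :=
        mul_le_mul_of_nonneg_right (mul_le_mul_of_nonneg_right ha1.le hL0) hMK
      _ = (((lcm (d a) L : ℕ) : ℝ) * ((Nat.gcd L (d a) : ℕ) : ℝ)) * M ^ (K ^ 2) := by rw [hlg]
      _ ≤ (((lcm (d a) L : ℕ) : ℝ) * M ^ K) * M ^ (K ^ 2) :=
        mul_le_mul_of_nonneg_right (mul_le_mul_of_nonneg_left hg hc0) hMK
      _ = ((lcm (d a) L : ℕ) : ℝ) * M ^ (K + K ^ 2) := by rw [pow_add]; ring
      _ ≤ ((lcm (d a) L : ℕ) : ℝ) * M ^ ((K + 1) ^ 2) :=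
        mul_le_mul_of_nonneg_left (pow_le_pow_right₀ hM (by nlinarith)) hc0

theorem HLC : HLC_stmt := by
  intro S d y H M hy hH hM h1 h2
  have hm := HLC_main S d H M hH hM (fun x hx => (h1 x hx).2) h2
  have hd : S.lcm d ∣ y.natAbs :=
    Finset.lcm_dvd fun x hx => Int.natCast_dvd.1 (h1 x hx).1
  have hle : S.lcm d ≤ y.natAbs := Nat.le_of_dvd (Int.natAbs_pos.2 hy) hd
  have hle' : ((S.lcm d : ℕ) : ℝ) ≤ |(y : ℝ)| := by
    have := (Nat.cast_le (α := ℝ)).2 hle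
    rwa [Nat.cast_natAbs, Int.cast_abs] at this
  exact hm.trans (mul_le_mul_of_nonneg_right hle' (pow_nonneg (by linarith) _))

end Pool.Agent.T6
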